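import Mathlib

/-!
# Compactness for line transversals
-/

open Filter Topology

namespace Pool.Agent.Y349.BX

/-- If every finite subfamily of a family of compact sets has a line transversal, then the whole
family has a line transversal. -/
theorem compactness {d : ℕ} (F : Set (Set (Fin d → ℝ))) (hF : ∀ B ∈ F, IsCompact B)
    (h : ∀ G ⊆ F, G.Finite → ∃ p v : Fin d → ℝ, v ≠ 0 ∧ ∀ B ∈ G, ∃ t : ℝ, p + t • v ∈ B) :
    ∃ p v : Fin d → ℝ, v ≠ 0 ∧ ∀ B ∈ F, ∃ t : ℝ, p + t • v ∈ B := by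
  classical
  rcases Set.eq_empty_or_nonempty F with rfl | ⟨B0, hB0⟩
  · exact h ∅ (Set.empty_subset _) Set.finite_empty
  let X : Set ((Fin d → ℝ) × (Fin d → ℝ)) := B0 ×ˢ Metric.sphere 0 1
  have hX : IsCompact X := (hF B0 hB0).prod (isCompact_sphere _ _)
  let Z : F → Set ((Fin d → ℝ) × (Fin d → ℝ)) := fun B =>
    {q | q ∈ X ∧ ∃ t : ℝ, q.1 + t • q.2 ∈ (B : Set (Fin d → ℝ))}
  have hZ : ∀ B, IsClosed (Z B) := by
    intro B
    obtain ⟨R, hR⟩ := ((hF B0 hB0).isBounded.union (hF B B.2).isBounded).exists_norm_le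
    let Y : Set (((Fin d → ℝ) × (Fin d → ℝ)) × ℝ) :=
      (X ×ˢ Metric.closedBall 0 (2 * R)) ∩ {y | y.1.1 + y.2 • y.1.2 ∈ (B : Set (Fin d → ℝ))}
    have hY : IsCompact Y := by
      refine (hX.prod (isCompact_closedBall _ _)).inter_right ?_
      exact (hF B B.2).isClosed.preimage (by fun_prop)
    have hZY : Z B = Prod.fst '' Y := by
      ext q
      constructor
      · rintro ⟨hq, t, ht⟩
        refine ⟨(q, t), ⟨⟨hq, ?_⟩, ht⟩, rfl⟩
        have h1 : ‖q.1‖ ≤ R := hR _ (Or.inl hq.1)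
        have h2 : ‖q.1 + t • q.2‖ ≤ R := hR _ (Or.inr ht)
        have h3 : ‖q.2‖ = 1 := by simpa using hq.2
        have h4 : t • q.2 = (q.1 + t • q.2) - q.1 := by abel
        have h5 : ‖t • q.2‖ ≤ R + R := by
          rw [h4]
          exact (norm_sub_le _ _).trans (add_le_add h2 h1)
        rw [norm_smul, h3, mul_one] at h5
        simpa [two_mul] using h5
      · rintro ⟨⟨q', t⟩, ⟨⟨hq, _⟩, ht⟩, rfl⟩
        exact ⟨hq, t, ht⟩
    rw [hZY]
    exact (hY.image continuous_fst).isClosed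
  have hfin : ∀ u : Finset F, (X ∩ ⋂ B ∈ u, Z B).Nonempty := by
    intro u
    obtain ⟨p, v, hv, hpv⟩ := h (insert B0 (Subtype.val '' (u : Set F))) (by
      rintro B (rfl | ⟨C, _, rfl⟩)
      · exact hB0
      · exact C.2) ((u.finite_toSet.image _).insert _)
    obtain ⟨t0, ht0⟩ := hpv B0 (Set.mem_insert _ _)
    have hvn : 0 < ‖v‖ := norm_pos_iff.2 hv
    have hx : (p + t0 • v, ‖v‖⁻¹ • v) ∈ X := by
      refine ⟨ht0, ?_⟩
      simp [norm_smul, hvn.ne']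
    refine ⟨(p + t0 • v, ‖v‖⁻¹ • v), hx, ?_⟩
    simp only [Set.mem_iInter]
    intro B hB
    obtain ⟨t, ht⟩ := hpv B (Set.mem_insert_of_mem _ ⟨B, hB, rfl⟩)
    refine ⟨hx, (t - t0) * ‖v‖, ?_⟩
    have e : (p + t0 • v) + ((t - t0) * ‖v‖) • (‖v‖⁻¹ • v) = p + t • v := by
      rw [smul_smul, mul_assoc, mul_inv_cancel₀ hvn.ne', mul_one, sub_smul]
      abel
    change (p + t0 • v) + ((t - t0) * ‖v‖) • (‖v‖⁻¹ • v) ∈ (B : Set (Fin d → ℝ))
    rw [e]
    exact ht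
  obtain ⟨q, hqX, hq⟩ := hX.inter_iInter_nonempty Z hZ hfin
  simp only [Set.mem_iInter] at hq
  have h3 : ‖q.2‖ = 1 := by simpa using hqX.2
  refine ⟨q.1, q.2, fun h0 => ?_, fun B hB => (hq ⟨B, hB⟩).2⟩
  rw [h0] at h3
  simp at h3

end Pool.Agent.Y349.BX
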