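import Pool.Agent.Results.MP_5f7e36_co.BoxLineHelly

/-!
# Critical families of translates of a box

The construction is that of the theorem `main` of the file `BoxLineHelly`; here we record that all
the boxes are translates of one cube, and rescale them to translates of an arbitrary box.
-/

open Filter Topology
open Pool.Agent.Results.MP_5f7e36_co.BoxLineHelly

namespace Pool.Agent.Y349.BX

theorem cubes {n : ℕ} (hn : 0 < n) : ∃ (K : Type) (_ : Fintype K) (r : ℝ)
    (c : K → Fin (n+1) → ℝ), Fintype.card K = 2 ^ n * (2 * n + 1) ∧ 0 < r ∧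
    (∀ k0, ∃ p v : Fin (n+1) → ℝ, v ≠ 0 ∧ ∀ k, k ≠ k0 →
      ∃ t : ℝ, ∀ i, |p i + t * v i - c k i| ≤ r) ∧
    ¬ ∃ p v : Fin (n+1) → ℝ, v ≠ 0 ∧ ∀ k, ∃ t : ℝ, ∀ i, |p i + t * v i - c k i| ≤ r := by
  classical
  obtain ⟨ι, hι, s, X, w, hcard, hG⟩ := exists_good n
  obtain ⟨δ, hδ, hA⟩ := lemA' hG
  have hB := lemB hG hδ hA
  have hs := hG.1
  have hs1 : ∀ a i, s a i * s a i = 1 := by
    intro a i; rcases hs a i with h | h <;> simp [h]
  choose P V hV hPV using hB
  choose! T hT using hPV
  let K := ι × Option (Fin n × Bool)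
  have hK : Fintype.card K = 2 ^ n * (2 * n + 1) := by
    simp only [K, Fintype.card_prod, Fintype.card_option, Fintype.card_fin, Fintype.card_bool, hcard]
    ring
  -- choose the small parameter
  have ev1 : ∀ᶠ ε in 𝓝[>] (0:ℝ), ∀ k0 k : K, k ≠ k0 →
      ε < s k.1 (src k.2) * (P k0 (src k.2) + T k0 k * V k0 (src k.2)
        - s k.1 (src k.2) * (X k.1 (src k.2) + tm δ k.2 / w k.1 (src k.2))) ∧
      s k.1 (dst k.2) * (P k0 (dst k.2) + T k0 k * V k0 (dst k.2)
        - s k.1 (dst k.2) * (X k.1 (dst k.2) + tm δ k.2 / w k.1 (dst k.2))) < -ε := by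
    refine eventually_all.2 fun k0 => eventually_all.2 fun k => ?_
    by_cases hk : k = k0
    · simp [hk]
    obtain ⟨h1, h2⟩ := hT k0 k hk
    have e1 := ev_lt (f := fun ε : ℝ => ε) (g := fun _ => s k.1 (src k.2) * (P k0 (src k.2)
      + T k0 k * V k0 (src k.2)
        - s k.1 (src k.2) * (X k.1 (src k.2) + tm δ k.2 / w k.1 (src k.2)))) (by fun_prop)
        (by fun_prop) h1
    have e2 := ev_lt (g := fun ε : ℝ => -ε) (f := fun _ => s k.1 (dst k.2) * (P k0 (dst k.2)
      + T k0 k * V k0 (dst k.2)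
        - s k.1 (dst k.2) * (X k.1 (dst k.2) + tm δ k.2 / w k.1 (dst k.2)))) (by fun_prop)
        (by fun_prop) (by simpa using h2)
    filter_upwards [e1, e2] with ε h3 h4 _
    exact ⟨h3, h4⟩
  obtain ⟨ε, hε, hε1⟩ := (eventually_mem_nhdsWithin.and ev1).exists
  have hε0 : 0 < ε := hε
  -- choose the large parameter
  have ev2 : ∀ᶠ r in (atTop : Filter ℝ), ∀ k0 k : K, ∀ i ∈ Finset.range (n+1),
      |P k0 i + T k0 k * V k0 i| < r ∧
      |P k0 i + T k0 k * V k0 i - s k.1 i * (X k.1 i + tm δ k.2 / w k.1 i)| < r := by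
    refine eventually_all.2 fun k0 => eventually_all.2 fun k => ?_
    refine (Finset.eventually_all _).2 fun i _ => ?_
    exact (eventually_gt_atTop _).and (eventually_gt_atTop _)
  obtain ⟨r, hr0, hr⟩ := ((eventually_gt_atTop 0).and ev2).exists
  refine ⟨K, inferInstance, r, fun k i => cen s X w δ ε r k i, hK, hr0, ?_, ?_⟩
  · intro k0
    refine ⟨fun i => P k0 i, fun i => V k0 i, ?_, fun k hk => ⟨T k0 k, fun i => ?_⟩⟩
    · intro h
      have := congrFun h 0
      exact hV k0 (by simpa using this)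
    · obtain ⟨h1, h2⟩ := hε1 k0 k hk
      obtain ⟨h3, h4⟩ := hr k0 k i (Finset.mem_range.2 i.2)
      rw [abs_lt] at h3 h4
      rw [abs_le]
      beta_reduce
      unfold cen
      by_cases c1 : (i : ℕ) = src k.2
      · rw [if_pos c1]
        rw [← c1] at h1
        rcases hs k.1 i with k' | k' <;> rw [k'] at h1 h4 ⊢ <;> constructor <;> linarith
      · rw [if_neg c1]
        by_cases c2 : (i : ℕ) = dst k.2
        · rw [if_pos c2]
          rw [← c2] at h2
          rcases hs k.1 i with k' | k' <;> rw [k'] at h2 h4 ⊢ <;> constructor <;> linarith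
        · rw [if_neg c2]
          constructor <;> linarith
  · rintro ⟨p, v, _, h⟩
    refine lemD hG δ (fun i => if h : i < n + 1 then p ⟨i, h⟩ else 0)
      (fun i => if h : i < n + 1 then v ⟨i, h⟩ else 0) ?_
    intro a e
    obtain ⟨t, ht⟩ := h (a, e)
    refine ⟨t, ?_, ?_⟩
    · have hlt : src e < n + 1 := Nat.lt_succ_of_le (src_le e)
      have := abs_le.1 (ht ⟨src e, hlt⟩)
      beta_reduce at this
      simp only [hlt, dite_true]
      unfold cen at this
      simp only [if_true] at this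
      rcases hs a (src e) with k' | k' <;> rw [k'] at this ⊢ <;> linarith [this.1, this.2]
    · have hlt : dst e < n + 1 := Nat.lt_succ_of_le (dst_le e)
      have := abs_le.1 (ht ⟨dst e, hlt⟩)
      beta_reduce at this
      simp only [hlt, dite_true]
      unfold cen at this
      have hne : dst e ≠ src e := (src_ne_dst hn e).symm
      simp only [if_true, if_neg hne] at this
      rcases hs a (dst e) with k' | k' <;> rw [k'] at this ⊢ <;> linarith [this.1, this.2]

/-- for every box `Q` there is a critical family of `2^n (2n+1)` translates of `Q` -/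
theorem translates {n : ℕ} (hn : 0 < n) (a b : Fin (n+1) → ℝ) (hab : ∀ i, a i < b i) :
    ∃ (K : Type) (_ : Fintype K) (x : K → Fin (n+1) → ℝ),
    Fintype.card K = 2 ^ n * (2 * n + 1) ∧
    (∀ k0, ∃ p v : Fin (n+1) → ℝ, v ≠ 0 ∧ ∀ k, k ≠ k0 →
      ∃ t : ℝ, ∀ i, a i ≤ p i + t * v i - x k i ∧ p i + t * v i - x k i ≤ b i) ∧
    ¬ ∃ p v : Fin (n+1) → ℝ, v ≠ 0 ∧
      ∀ k, ∃ t : ℝ, ∀ i, a i ≤ p i + t * v i - x k i ∧ p i + t * v i - x k i ≤ b i := by
  obtain ⟨K, hK, r, c, hcard, hr, h1, h2⟩ := cubes hn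
  -- the factor of the coordinate `i`
  let s : Fin (n+1) → ℝ := fun i => (b i - a i) / (2 * r)
  have hs : ∀ i, 0 < s i := fun i => div_pos (by linarith [hab i]) (by linarith)
  have hsr : ∀ i, s i * r = (b i - a i) / 2 := by
    intro i; simp only [s]; field_simp
  refine ⟨K, hK, fun k i => s i * c k i - (a i + b i) / 2, hcard, fun k0 => ?_, ?_⟩
  · obtain ⟨p, v, hv, h⟩ := h1 k0
    refine ⟨fun i => s i * p i, fun i => s i * v i, ?_, fun k hk => ?_⟩
    · intro h0
      apply hv
      ext i
      have := congrFun h0 i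
      simp only [Pi.zero_apply, mul_eq_zero] at this
      rcases this with h3 | h3
      · exact absurd h3 (hs i).ne'
      · exact h3
    · obtain ⟨t, ht⟩ := h k hk
      refine ⟨t, fun i => ?_⟩
      have h3 := abs_le.1 (ht i)
      have h4 := mul_le_mul_of_nonneg_left h3.1 (hs i).le
      have h5 := mul_le_mul_of_nonneg_left h3.2 (hs i).le
      have h6 := hsr i
      constructor <;> nlinarith
  · rintro ⟨p, v, hv, h⟩
    refine h2 ⟨fun i => p i / s i, fun i => v i / s i, ?_, fun k => ?_⟩
    · intro h0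
      apply hv
      ext i
      have := congrFun h0 i
      simp only [Pi.zero_apply, div_eq_zero_iff] at this
      rcases this with h3 | h3
      · exact h3
      · exact absurd h3 (hs i).ne'
    · obtain ⟨t, ht⟩ := h k
      refine ⟨t, fun i => ?_⟩
      have h3 := ht i
      have h6 := hsr i
      have e1 : p i / s i + t * (v i / s i) - c k i = (p i + t * v i - s i * c k i) / s i := by
        have := (hs i).ne'
        field_simp
      rw [e1, abs_le, le_div_iff₀ (hs i), div_le_iff₀ (hs i)]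
      constructor <;> linarith [h3.1, h3.2]

end Pool.Agent.Y349.BX
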