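import Pool.Agent.Y349.BX.CH

/-!
# Rainbow theorem for hyperplane transversals of boxes

The hyperplanes `{x | ∑ u i * x i = e}` whose normal vector has given signs and is normalised by
`∑ |u i| = 1` and which meet a box form a convex set of dimension `n + 1`.
-/

open Module

namespace Pool.Agent.Y349.BX

/-- the hyperplane `∑ u i * x i = e` meets the box -/
def HitH {m : ℕ} (a b u : Fin m → ℝ) (e : ℝ) : Prop :=
  ∃ x : Fin m → ℝ, (∀ i, a i ≤ x i ∧ x i ≤ b i) ∧ ∑ i, u i * x i = e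

/-- the sign -/
def sg {n : ℕ} (τ : Fin n → Bool) (i : Fin n) : ℝ := if τ i then 1 else -1

/-- the normal vector with the parameters `w` -/
def UU {n : ℕ} (τ : Fin n → Bool) (w : Fin n → ℝ) : Fin (n+1) → ℝ :=
  Fin.cons (1 - ∑ i, sg τ i * w i) w

/-- the corner where the linear form is smallest -/
def lo {n : ℕ} (τ : Fin n → Bool) (a b : Fin (n+1) → ℝ) : Fin (n+1) → ℝ :=
  Fin.cons (a 0) (fun i => if τ i then a i.succ else b i.succ)

/-- the parameters of the hyperplanes of the class `τ` which meet the box -/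
def HPar {n : ℕ} (a b : Fin (n+1) → ℝ) (τ : Fin n → Bool) : Set ((Fin n → ℝ) × ℝ) :=
  {q | (∀ i, 0 ≤ sg τ i * q.1 i) ∧ ∑ i, sg τ i * q.1 i ≤ 1 ∧
    ∑ i, UU τ q.1 i * lo τ a b i ≤ q.2 ∧ q.2 ≤ ∑ i, UU τ q.1 i * lo τ b a i}

lemma sum_comb {n : ℕ} (f x y : Fin n → ℝ) (α β : ℝ) :
    ∑ i, f i * (α * x i + β * y i) = α * ∑ i, f i * x i + β * ∑ i, f i * y i := by
  rw [Finset.mul_sum, Finset.mul_sum, ← Finset.sum_add_distrib]
  exact Finset.sum_congr rfl fun i _ => by ring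

lemma UU_comb {n : ℕ} (τ : Fin n → Bool) (x y : Fin n → ℝ) (α β : ℝ) (h : α + β = 1)
    (i : Fin (n+1)) : UU τ (α • x + β • y) i = α * UU τ x i + β * UU τ y i := by
  refine Fin.cases ?_ (fun j => ?_) i
  · simp only [UU, Fin.cons_zero, Pi.add_apply, Pi.smul_apply, smul_eq_mul]
    rw [sum_comb]
    have : (1 : ℝ) = α + β := h.symm
    rw [this]
    ring_nf
    have h' : α * α + α * β = α := by
      have : α * (α + β) = α := by rw [h, mul_one]
      linarith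
    nlinarith
  · simp only [UU, Fin.cons_succ, Pi.add_apply, Pi.smul_apply, smul_eq_mul]

lemma hpar_convex {n : ℕ} (a b : Fin (n+1) → ℝ) (τ : Fin n → Bool) :
    Convex ℝ (HPar a b τ) := by
  intro p hp q hq α β hα hβ hαβ
  obtain ⟨p1, p2, p3, p4⟩ := hp
  obtain ⟨q1, q2, q3, q4⟩ := hq
  have e : ∀ c : Fin (n+1) → ℝ, ∑ i, UU τ (α • p + β • q).1 i * c i =
      α * ∑ i, UU τ p.1 i * c i + β * ∑ i, UU τ q.1 i * c i := by
    intro c
    rw [Finset.mul_sum, Finset.mul_sum, ← Finset.sum_add_distrib]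
    refine Finset.sum_congr rfl fun i _ => ?_
    rw [Prod.fst_add, Prod.smul_fst, Prod.smul_fst, UU_comb τ p.1 q.1 α β hαβ i]
    ring
  have e2 : ∑ i, sg τ i * (α • p + β • q).1 i =
      α * ∑ i, sg τ i * p.1 i + β * ∑ i, sg τ i * q.1 i := by
    rw [← sum_comb]
    rfl
  have e3 : (α • p + β • q).2 = α * p.2 + β * q.2 := rfl
  refine ⟨fun i => ?_, ?_, ?_, ?_⟩
  · have h1 : sg τ i * (α • p + β • q).1 i = α * (sg τ i * p.1 i) + β * (sg τ i * q.1 i) := by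
      show sg τ i * (α * p.1 i + β * q.1 i) = _
      ring
    rw [h1]
    exact add_nonneg (mul_nonneg hα (p1 i)) (mul_nonneg hβ (q1 i))
  · rw [e2]
    nlinarith [mul_le_mul_of_nonneg_left p2 hα, mul_le_mul_of_nonneg_left q2 hβ]
  · rw [e, e3]
    exact add_le_add (mul_le_mul_of_nonneg_left p3 hα) (mul_le_mul_of_nonneg_left q3 hβ)
  · rw [e, e3]
    exact add_le_add (mul_le_mul_of_nonneg_left p4 hα) (mul_le_mul_of_nonneg_left q4 hβ)

/-- from the parameters to the hyperplane -/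
lemma hpar_hit {n : ℕ} (a b : Fin (n+1) → ℝ) (hab : ∀ i, a i ≤ b i) (τ : Fin n → Bool)
    (q : (Fin n → ℝ) × ℝ) (hq : q ∈ HPar a b τ) : HitH a b (UU τ q.1) q.2 := by
  obtain ⟨_, _, h3, h4⟩ := hq
  have hc : Continuous fun t : ℝ =>
      ∑ i, UU τ q.1 i * ((1 - t) * lo τ a b i + t * lo τ b a i) := by fun_prop
  have h0 : ∑ i, UU τ q.1 i * ((1 - (0:ℝ)) * lo τ a b i + 0 * lo τ b a i) =
      ∑ i, UU τ q.1 i * lo τ a b i := by simp
  have h1 : ∑ i, UU τ q.1 i * ((1 - (1:ℝ)) * lo τ a b i + 1 * lo τ b a i) =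
      ∑ i, UU τ q.1 i * lo τ b a i := by simp
  have hiv := intermediate_value_Icc (zero_le_one (α := ℝ)) hc.continuousOn
  rw [h0, h1] at hiv
  obtain ⟨t, ⟨ht0, ht1⟩, ht⟩ := hiv ⟨h3, h4⟩
  refine ⟨fun i => (1 - t) * lo τ a b i + t * lo τ b a i, fun i => ?_, ht⟩
  have hl : (lo τ a b i = a i ∧ lo τ b a i = b i) ∨ (lo τ a b i = b i ∧ lo τ b a i = a i) := by
    refine Fin.cases ?_ (fun j => ?_) i
    · exact Or.inl ⟨rfl, rfl⟩
    · by_cases hj : τ j
      · left; constructor <;> simp [lo, hj]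
      · right; constructor <;> simp [lo, hj]
  have hi := hab i
  rcases hl with ⟨l1, l2⟩ | ⟨l1, l2⟩
  · simp only [l1, l2]
    constructor <;> nlinarith
  · simp only [l1, l2]
    constructor <;> nlinarith

lemma UU_ne {n : ℕ} (τ : Fin n → Bool) (w : Fin n → ℝ) : UU τ w ≠ 0 := by
  intro h
  have h1 : ∀ i, w i = 0 := by
    intro i
    have := congrFun h i.succ
    simpa [UU] using this
  have h0 := congrFun h 0
  simp [UU, h1] at h0

/-- from a hyperplane to the parameters -/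
lemma hit_hpar {n : ℕ} (u : Fin (n+1) → ℝ) (hu : u ≠ 0) (e : ℝ) :
    ∃ (τ : Fin n → Bool) (q : (Fin n → ℝ) × ℝ), ∀ a b : Fin (n+1) → ℝ, HitH a b u e →
      q ∈ HPar a b τ := by
  classical
  -- normalise
  have hS : 0 < ∑ i, |u i| := by
    obtain ⟨i, hi⟩ : ∃ i, u i ≠ 0 := by
      by_contra hcon
      push Not at hcon
      exact hu (funext hcon)
    exact Finset.sum_pos' (fun i _ => abs_nonneg _) ⟨i, Finset.mem_univ _, abs_pos.2 hi⟩
  obtain ⟨l, hl, hl0, hl1⟩ : ∃ l : ℝ, l ≠ 0 ∧ 0 ≤ l * u 0 ∧ ∑ i, |l * u i| = 1 := by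
    have key : ∀ l : ℝ, |l| = (∑ i, |u i|)⁻¹ → ∑ i, |l * u i| = 1 := by
      intro l h
      simp only [abs_mul]
      rw [← Finset.mul_sum, h, inv_mul_cancel₀ hS.ne']
    rcases le_total 0 (u 0) with h0 | h0
    · refine ⟨(∑ i, |u i|)⁻¹, (inv_pos.2 hS).ne', mul_nonneg (inv_pos.2 hS).le h0, key _ ?_⟩
      exact abs_of_pos (inv_pos.2 hS)
    · refine ⟨-(∑ i, |u i|)⁻¹, neg_ne_zero.2 (inv_pos.2 hS).ne', ?_, key _ ?_⟩
      · have := mul_nonneg (inv_pos.2 hS).le (neg_nonneg.2 h0)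
        linarith
      · rw [abs_neg]
        exact abs_of_pos (inv_pos.2 hS)
  let τ : Fin n → Bool := fun i => decide (0 ≤ l * u i.succ)
  have hsg : ∀ i, sg τ i * (l * u i.succ) = |l * u i.succ| := by
    intro i
    by_cases hi : 0 ≤ l * u i.succ
    · simp only [sg, τ, decide_eq_true hi, if_true, one_mul]
      exact (abs_of_nonneg hi).symm
    · simp only [sg, τ, decide_eq_false hi, Bool.false_eq_true, if_false]
      rw [abs_of_neg (not_le.1 hi)]
      ring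
  have hsum : l * u 0 + ∑ i : Fin n, |l * u i.succ| = 1 := by
    rw [← hl1, Fin.sum_univ_succ, abs_of_nonneg hl0]
  have hU : UU τ (fun i => l * u i.succ) = fun i => l * u i := by
    funext i
    refine Fin.cases ?_ (fun j => ?_) i
    · simp only [UU, Fin.cons_zero]
      rw [Finset.sum_congr rfl fun i _ => hsg i]
      linarith
    · simp only [UU, Fin.cons_succ]
  refine ⟨τ, (fun i => l * u i.succ, l * e), ?_⟩
  rintro a b ⟨x, hx, hxe⟩
  have hdot : ∑ i, l * u i * x i = l * e := by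
    rw [← hxe, Finset.mul_sum]
    exact Finset.sum_congr rfl fun i _ => by ring
  have h0 : ∀ i, (τ i = true ∧ 0 ≤ l * u i.succ) ∨ (τ i = false ∧ l * u i.succ ≤ 0) := by
    intro i
    by_cases hi : 0 ≤ l * u i.succ
    · exact Or.inl ⟨decide_eq_true hi, hi⟩
    · exact Or.inr ⟨decide_eq_false hi, (not_le.1 hi).le⟩
  refine ⟨fun i => ?_, ?_, ?_, ?_⟩
  · simp only
    rw [hsg]
    exact abs_nonneg _
  · simp only
    rw [Finset.sum_congr rfl fun i _ => hsg i]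
    linarith
  · simp only
    rw [hU, ← hdot]
    refine Finset.sum_le_sum fun i _ => ?_
    refine Fin.cases ?_ (fun j => ?_) i
    · simp only [lo, Fin.cons_zero]
      exact mul_le_mul_of_nonneg_left (hx 0).1 hl0
    · simp only [lo, Fin.cons_succ]
      rcases h0 j with ⟨h1, h2⟩ | ⟨h1, h2⟩
      · rw [h1]
        simpa using mul_le_mul_of_nonneg_left (hx j.succ).1 h2
      · rw [h1]
        simpa using mul_le_mul_of_nonpos_left (hx j.succ).2 h2
  · simp only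
    rw [hU, ← hdot]
    refine Finset.sum_le_sum fun i _ => ?_
    refine Fin.cases ?_ (fun j => ?_) i
    · simp only [lo, Fin.cons_zero]
      exact mul_le_mul_of_nonneg_left (hx 0).2 hl0
    · simp only [lo, Fin.cons_succ]
      rcases h0 j with ⟨h1, h2⟩ | ⟨h1, h2⟩
      · rw [h1]
        simpa using mul_le_mul_of_nonneg_left (hx j.succ).2 h2
      · rw [h1]
        simpa using mul_le_mul_of_nonpos_left (hx j.succ).1 h2

/-- the colours: a class of normal vectors and a number below `n + 2` -/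
abbrev HCol (n : ℕ) := (Fin n → Bool) × Fin (n + 2)

lemma card_HCol (n : ℕ) : Fintype.card (HCol n) = 2 ^ n * (n + 2) := by
  simp [Fintype.card_prod]

/-- the rainbow theorem for hyperplane transversals of finite families -/
theorem hyp_rainbow_fin {n : ℕ} {κ : HCol n → Type*} [∀ c, Finite (κ c)]
    (a b : ∀ c, κ c → Fin (n+1) → ℝ) (hab : ∀ c k i, a c k i ≤ b c k i)
    (h : ∀ f : (∀ c, κ c), ∃ (u : Fin (n+1) → ℝ) (e : ℝ), u ≠ 0 ∧
      ∀ c, HitH (a c (f c)) (b c (f c)) u e) :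
    ∃ c, ∃ (u : Fin (n+1) → ℝ) (e : ℝ), u ≠ 0 ∧ ∀ k, HitH (a c k) (b c k) u e := by
  classical
  by_contra hcon
  push Not at hcon
  have h2 : ∀ τ : Fin n → Bool, ∃ g : (∀ j, κ (τ, j)),
      ¬ ∃ z, ∀ j, z ∈ HPar (a (τ, j) (g j)) (b (τ, j) (g j)) τ := by
    intro τ
    by_contra h3
    push Not at h3
    have hfin : Module.finrank ℝ ((Fin n → ℝ) × ℝ) = n + 1 := by
      rw [Module.finrank_prod, Module.finrank_fin_fun, Module.finrank_self]
    obtain ⟨j, z, hz⟩ := rainbow (C := Fin (n + 2)) hfin (by simp)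
      (fun j k => HPar (a (τ, j) k) (b (τ, j) k) τ) (fun j k => hpar_convex _ _ _) h3
    obtain ⟨k, hk⟩ := hcon (τ, j) (UU τ z.1) z.2 (UU_ne τ z.1)
    exact hk (hpar_hit _ _ (hab _ _) τ z (hz k))
  choose g hg using h2
  obtain ⟨u, e, hu, hue⟩ := h (fun c => g c.1 c.2)
  obtain ⟨τ, q, hq⟩ := hit_hpar u hu e
  exact hg τ ⟨q, fun j => hq _ _ (hue (τ, j))⟩

/-- compactness for hyperplane transversals -/
theorem hyp_compactness {d : ℕ} (F : Set (Set (Fin d → ℝ)))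
    (hF : ∀ B ∈ F, IsCompact B)
    (h : ∀ G ⊆ F, G.Finite → ∃ (u : Fin d → ℝ) (e : ℝ), u ≠ 0 ∧
      ∀ B ∈ G, ∃ x ∈ B, ∑ i, u i * x i = e) :
    ∃ (u : Fin d → ℝ) (e : ℝ), u ≠ 0 ∧ ∀ B ∈ F, ∃ x ∈ B, ∑ i, u i * x i = e := by
  classical
  rcases Set.eq_empty_or_nonempty F with rfl | ⟨B0, hB0⟩
  · exact h ∅ (Set.empty_subset _) Set.finite_empty
  let X : Set ((Fin d → ℝ) × (Fin d → ℝ)) := Metric.sphere 0 1 ×ˢ B0
  have hX : IsCompact X := (isCompact_sphere _ _).prod (hF B0 hB0)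
  let Z : F → Set ((Fin d → ℝ) × (Fin d → ℝ)) := fun B =>
    {q | q ∈ X ∧ ∃ x ∈ (B : Set (Fin d → ℝ)), ∑ i, q.1 i * x i = ∑ i, q.1 i * q.2 i}
  have hZ : ∀ B, IsClosed (Z B) := by
    intro B
    let Y : Set (((Fin d → ℝ) × (Fin d → ℝ)) × (Fin d → ℝ)) :=
      (X ×ˢ (B : Set (Fin d → ℝ))) ∩ {y | ∑ i, y.1.1 i * y.2 i = ∑ i, y.1.1 i * y.1.2 i}
    have hY : IsCompact Y :=
      (hX.prod (hF B B.2)).inter_right (isClosed_eq (by fun_prop) (by fun_prop))
    have hZY : Z B = Prod.fst '' Y := by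
      ext q
      constructor
      · rintro ⟨hq, x, hx, hxe⟩
        exact ⟨(q, x), ⟨⟨hq, hx⟩, hxe⟩, rfl⟩
      · rintro ⟨⟨q', x⟩, ⟨⟨hq, hx⟩, hxe⟩, rfl⟩
        exact ⟨hq, x, hx, hxe⟩
    rw [hZY]
    exact (hY.image continuous_fst).isClosed
  have hfin : ∀ u : Finset F, (X ∩ ⋂ B ∈ u, Z B).Nonempty := by
    intro s
    obtain ⟨u, e, hu, hue⟩ := h (insert B0 (Subtype.val '' (s : Set F))) (by
      rintro B (rfl | ⟨C, _, rfl⟩)
      · exact hB0
      · exact C.2) ((s.finite_toSet.image _).insert _)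
    obtain ⟨x0, hx0, hx0e⟩ := hue B0 (Set.mem_insert _ _)
    have hun : 0 < ‖u‖ := norm_pos_iff.2 hu
    have hx : (‖u‖⁻¹ • u, x0) ∈ X := by
      refine ⟨?_, hx0⟩
      simp [norm_smul, hun.ne']
    refine ⟨(‖u‖⁻¹ • u, x0), hx, ?_⟩
    simp only [Set.mem_iInter]
    intro B hB
    obtain ⟨x, hxB, hxe⟩ := hue B (Set.mem_insert_of_mem _ ⟨B, hB, rfl⟩)
    refine ⟨hx, x, hxB, ?_⟩
    have e1 : ∀ y : Fin d → ℝ, ∑ i, (‖u‖⁻¹ • u) i * y i = ‖u‖⁻¹ * ∑ i, u i * y i := by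
      intro y
      rw [Finset.mul_sum]
      exact Finset.sum_congr rfl fun i _ => by simp [mul_assoc]
    change ∑ i, (‖u‖⁻¹ • u) i * x i = ∑ i, (‖u‖⁻¹ • u) i * x0 i
    rw [e1, e1, hxe, hx0e]
  obtain ⟨q, hqX, hq⟩ := hX.inter_iInter_nonempty Z hZ hfin
  simp only [Set.mem_iInter] at hq
  have h3 : ‖q.1‖ = 1 := by simpa using hqX.1
  refine ⟨q.1, ∑ i, q.1 i * q.2 i, fun h0 => ?_, fun B hB => ?_⟩
  · rw [h0] at h3
    simp at h3
  · exact (hq ⟨B, hB⟩).2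

end Pool.Agent.Y349.BX
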