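import Mathlib

/-!
# The rainbow form of Helly's theorem (Lovász, Bárány)

`C` is a set of `D + 1` colours, `E` is a real vector space of dimension `D`; for every colour `c`
a finite family `K c` of convex sets is given.  If every rainbow choice has a common point, then all
the sets of some colour have a common point.
-/

open Module

namespace Pool.Agent.Y349.BX

section closed

variable {D : ℕ}

abbrev Eu (D : ℕ) := EuclideanSpace ℝ (Fin D)

/-- a closed nonempty set has a point of least norm -/
lemma exists_min {S : Set (Eu D)} (hS : IsClosed S) (hne : S.Nonempty) :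
    ∃ x ∈ S, ∀ y ∈ S, ‖x‖ ≤ ‖y‖ := by
  obtain ⟨x, hx, h⟩ := hS.exists_infDist_eq_dist hne 0
  refine ⟨x, hx, fun y hy => ?_⟩
  have h1 := Metric.infDist_le_dist_of_mem (x := (0 : Eu D)) hy
  rw [h] at h1
  simpa [dist_eq_norm] using h1

/-- uniqueness of the point of least norm in a convex set -/
lemma min_unique {S : Set (Eu D)} (hS : Convex ℝ S) {x y : Eu D} (hx : x ∈ S) (hy : y ∈ S)
    (h1 : ∀ z ∈ S, ‖x‖ ≤ ‖z‖) (h2 : ‖y‖ ≤ ‖x‖) : y = x := by
  by_contra hne
  have he : ‖y‖ = ‖x‖ := le_antisymm h2 (h1 y hy)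
  have h3 : ‖(1 / 2 : ℝ) • (y + x)‖ < ‖y‖ := (norm_midpoint_lt_iff he).2 hne
  have h4 : (1 / 2 : ℝ) • (y + x) ∈ S := by
    have := hS hy hx (a := 1 / 2) (b := 1 / 2) (by norm_num) (by norm_num) (by norm_num)
    rwa [smul_add]
  have h5 := h1 _ h4
  rw [he] at h3
  linarith

/-- the rainbow theorem for closed convex sets -/
theorem rainbow_closed {C : Type*} [Fintype C] (hC : Fintype.card C = D + 1)
    {κ : C → Type*} [∀ c, Finite (κ c)] [∀ c, Nonempty (κ c)]
    (K : ∀ c, κ c → Set (Eu D)) (hconv : ∀ c k, Convex ℝ (K c k))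
    (hcl : ∀ c k, IsClosed (K c k))
    (h : ∀ f : (∀ c, κ c), ∃ x, ∀ c, x ∈ K c (f c)) :
    ∃ c, ∃ x, ∀ k, x ∈ K c k := by
  classical
  -- partial intersections
  let S : C × (∀ c, κ c) → Set (Eu D) := fun q => {x | ∀ c, c ≠ q.1 → x ∈ K c (q.2 c)}
  have hScl : ∀ q, IsClosed (S q) := by
    intro q
    have : S q = ⋂ c, ⋂ (_ : c ≠ q.1), K c (q.2 c) := by ext x; simp [S]
    rw [this]
    exact isClosed_iInter fun c => isClosed_iInter fun _ => hcl _ _
  have hSconv : ∀ q, Convex ℝ (S q) := by
    intro q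
    have : S q = ⋂ c, ⋂ (_ : c ≠ q.1), K c (q.2 c) := by ext x; simp [S]
    rw [this]
    exact convex_iInter fun c => convex_iInter fun _ => hconv _ _
  have hSne : ∀ q, (S q).Nonempty := by
    intro q
    obtain ⟨x, hx⟩ := h q.2
    exact ⟨x, fun c _ => hx c⟩
  choose m hmS hm using fun q => exists_min (hScl q) (hSne q)
  have hCne : Nonempty C := Fintype.card_pos_iff.1 (by omega)
  obtain ⟨q0, hq0⟩ := Finite.exists_max (fun q : C × (∀ c, κ c) => ‖m q‖)
  refine ⟨q0.1, m q0, fun k => ?_⟩
  -- the full intersection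
  let f : ∀ c, κ c := Function.update q0.2 q0.1 k
  have hfk : f q0.1 = k := Function.update_self _ _ _
  have hfc : ∀ c, c ≠ q0.1 → f c = q0.2 c := fun c hc => Function.update_of_ne hc _ _
  let T : Set (Eu D) := {x | ∀ c, x ∈ K c (f c)}
  have hTcl : IsClosed T := by
    have : T = ⋂ c, K c (f c) := by ext x; simp [T]
    rw [this]
    exact isClosed_iInter fun c => hcl _ _
  obtain ⟨x', hx'T, hx'⟩ := exists_min hTcl (h f)
  have hx'S : x' ∈ S q0 := fun c hc => by rw [← hfc c hc]; exact hx'T c
  rcases le_or_gt ‖x'‖ ‖m q0‖ with hle | hlt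
  · have : x' = m q0 := min_unique (hSconv q0) (hmS q0) hx'S (hm q0) hle
    rw [← this, ← hfk]
    exact hx'T _
  · exfalso
    -- the family with the ball
    let F : Option C → Set (Eu D) := fun o => o.elim (Metric.ball 0 ‖x'‖) (fun c => K c (f c))
    have hF : ¬ (⋂ o ∈ (Finset.univ : Finset (Option C)), F o).Nonempty := by
      rintro ⟨y, hy⟩
      simp only [Finset.mem_univ, Set.iInter_true, Set.mem_iInter] at hy
      have h1 : y ∈ T := fun c => hy (some c)
      have h2 : y ∈ Metric.ball (0 : Eu D) ‖x'‖ := hy none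
      rw [mem_ball_zero_iff] at h2
      linarith [hx' y h1]
    apply hF
    have hcard : finrank ℝ (Eu D) + 1 ≤ (Finset.univ : Finset (Option C)).card := by
      rw [Finset.card_univ, Fintype.card_option, hC, finrank_euclideanSpace_fin]
      omega
    refine Convex.helly_theorem (𝕜 := ℝ) hcard ?_ ?_
    · rintro (_ | c) _
      · exact convex_ball _ _
      · exact hconv _ _
    · intro I _ hI
      rw [finrank_euclideanSpace_fin] at hI
      by_cases hn : none ∈ I
      · -- some colour is missing
        obtain ⟨c, hc⟩ : ∃ c : C, some c ∉ I := by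
          by_contra hcon
          push Not at hcon
          have : I = Finset.univ := by
            ext o
            constructor
            · intro _; exact Finset.mem_univ _
            · intro _
              rcases o with _ | c
              · exact hn
              · exact hcon c
          rw [this, Finset.card_univ, Fintype.card_option, hC] at hI
          omega
        refine ⟨m (c, f), ?_⟩
        simp only [Set.mem_iInter]
        rintro (_ | c') ho
        · change m (c, f) ∈ Metric.ball (0 : Eu D) ‖x'‖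
          rw [mem_ball_zero_iff]
          exact (hq0 (c, f)).trans_lt hlt
        · have hne : c' ≠ c := by rintro rfl; exact hc ho
          exact hmS (c, f) c' hne
      · refine ⟨x', ?_⟩
        simp only [Set.mem_iInter]
        rintro (_ | c') ho
        · exact absurd ho hn
        · exact hx'T c'

end closed

/-- **Rainbow Helly theorem.** -/
theorem rainbow {E : Type*} [AddCommGroup E] [Module ℝ E] [FiniteDimensional ℝ E] {D : ℕ}
    (hD : finrank ℝ E = D) {C : Type*} [Fintype C] (hC : Fintype.card C = D + 1)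
    {κ : C → Type*} [∀ c, Finite (κ c)]
    (K : ∀ c, κ c → Set E) (hconv : ∀ c k, Convex ℝ (K c k))
    (h : ∀ f : (∀ c, κ c), ∃ x, ∀ c, x ∈ K c (f c)) :
    ∃ c, ∃ x, ∀ k, x ∈ K c k := by
  classical
  by_cases hne : ∀ c, Nonempty (κ c)
  swap
  · push Not at hne
    obtain ⟨c, hc⟩ := hne
    exact ⟨c, 0, fun k => (hc.false k).elim⟩
  let φ : E ≃ₗ[ℝ] Eu D := LinearEquiv.ofFinrankEq _ _ (by rw [hD, finrank_euclideanSpace_fin])
  choose z hz using h
  -- replace the sets by polytopes
  let P : ∀ c, κ c → Set (Eu D) := fun c k => convexHull ℝ ((fun f => φ (z f)) '' {f | f c = k})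
  have hsub : ∀ c k, P c k ⊆ φ '' K c k := by
    intro c k
    refine convexHull_min ?_ ((hconv c k).linear_image φ.toLinearMap)
    rintro _ ⟨f, hf, rfl⟩
    refine ⟨z f, ?_, rfl⟩
    have hf' : f c = k := hf
    rw [← hf']
    exact hz f c
  have hfin : Finite (∀ c, κ c) := inferInstance
  obtain ⟨c, x, hx⟩ := rainbow_closed (D := D) hC P (fun c k => convex_convexHull _ _)
    (fun c k => (((Set.toFinite _).isCompact_convexHull ℝ).isClosed))
    (fun f => ⟨φ (z f), fun c => subset_convexHull ℝ _ ⟨f, rfl, rfl⟩⟩)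
  refine ⟨c, φ.symm x, fun k => ?_⟩
  obtain ⟨y, hy, hyx⟩ := hsub c k (hx k)
  rw [← hyx]
  simpa using hy

end Pool.Agent.Y349.BX
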