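import Pool.Agent.Y349.BX.CH
import Pool.Agent.Results.MP_5f7e36_co.BoxLineHelly

/-!
# Rainbow version of Santaló's theorem on line transversals of boxes

The parametrisation of the lines by convex sets (`Par`, `pert`, `hit_to_par`, `par_to_hit`) is that
of the file `BoxLineHelly`; the limiting argument `limit` is taken from its lemma `santalo`.
-/

open Filter Topology
open Pool.Agent.Results.MP_5f7e36_co.BoxLineHelly

namespace Pool.Agent.Y349.BX

/-- passage to the limit: if all enlarged families have a transversal, so has the family -/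
lemma limit {n : ℕ} {κ : Type*} [Fintype κ] (a b : κ → Fin (n+1) → ℝ)
    (H : ∀ ε : ℝ, 0 < ε → ∃ p v : Fin (n+1) → ℝ, v 0 = 1 ∧ ∀ k, Hit (a k) (b k) p v ε) :
    ∃ p v : Fin (n+1) → ℝ, v ≠ 0 ∧ ∀ k, Hit (a k) (b k) p v 0 := by
  classical
  rcases isEmpty_or_nonempty κ with hκ | ⟨⟨k0⟩⟩
  · obtain ⟨p, v, hv, _⟩ := H 1 one_pos
    exact ⟨p, v, fun h => by rw [h] at hv; simp at hv, fun k => hκ.elim k⟩
  -- a bound for all the points
  obtain ⟨M, hM⟩ : ∃ M : ℝ, ∀ k, ∀ x : Fin (n+1) → ℝ,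
      (∀ i, a k i - 1 ≤ x i ∧ x i ≤ b k i + 1) → ‖x‖ ≤ M := by
    have hb : Bornology.IsBounded (⋃ k, Set.Icc (fun i => a k i - 1) (fun i => b k i + 1)) :=
      Bornology.isBounded_iUnion.2 fun k => (isCompact_Icc).isBounded
    obtain ⟨M, hM⟩ := hb.exists_norm_le
    exact ⟨M, fun k x hx => hM x (Set.mem_iUnion.2 ⟨k, fun i => (hx i).1, fun i => (hx i).2⟩)⟩
  let C : Set ((Fin (n+1) → ℝ) × (Fin (n+1) → ℝ) × (κ → ℝ)) :=
    (Metric.closedBall 0 M) ×ˢ ((Metric.sphere 0 1) ×ˢ (Metric.closedBall 0 (2 * M)))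
  have hC : IsCompact C := (isCompact_closedBall _ _).prod
    ((isCompact_sphere _ _).prod (isCompact_closedBall _ _))
  have hz : ∀ m : ℕ, ∃ z ∈ C, ∀ k i, a k i - 1 / ((m : ℝ) + 1) ≤ z.1 i + z.2.2 k * z.2.1 i ∧
      z.1 i + z.2.2 k * z.2.1 i ≤ b k i + 1 / ((m : ℝ) + 1) := by
    intro m
    have hε : (0:ℝ) < 1 / ((m : ℝ) + 1) := by positivity
    have hε1 : 1 / ((m : ℝ) + 1) ≤ 1 := by
      rw [div_le_one (by positivity)]
      have : (0:ℝ) ≤ m := Nat.cast_nonneg m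
      linarith
    obtain ⟨p, v, hv, h⟩ := H _ hε
    choose t ht using h
    have hvn : 0 < ‖v‖ := by
      rw [norm_pos_iff]
      intro h0
      rw [h0] at hv
      simp at hv
    have hx : ∀ k, ‖p + t k • v‖ ≤ M := by
      intro k
      refine hM k _ fun i => ?_
      have := ht k i
      simp only [Pi.add_apply, Pi.smul_apply, smul_eq_mul]
      exact ⟨by linarith [this.1], by linarith [this.2]⟩
    refine ⟨(p + t k0 • v, ‖v‖⁻¹ • v, fun k => (t k - t k0) * ‖v‖), ⟨?_, ?_, ?_⟩, fun k i => ?_⟩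
    · simpa using hx k0
    · simp [norm_smul, hvn.ne']
    · have hM0 : 0 ≤ M := (norm_nonneg _).trans (hx k0)
      rw [mem_closedBall_zero_iff, pi_norm_le_iff_of_nonneg (by linarith)]
      intro k
      have e1 : ‖(t k - t k0) * ‖v‖‖ = ‖(p + t k • v) - (p + t k0 • v)‖ := by
        have : (p + t k • v) - (p + t k0 • v) = (t k - t k0) • v := by
          rw [sub_smul]; abel
        rw [this, norm_smul, norm_mul, norm_norm]
      rw [e1]
      calc ‖(p + t k • v) - (p + t k0 • v)‖ ≤ ‖p + t k • v‖ + ‖p + t k0 • v‖ := norm_sub_le _ _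
        _ ≤ 2 * M := by linarith [hx k, hx k0]
    · have e2 : (p + t k0 • v) i + (t k - t k0) * ‖v‖ * (‖v‖⁻¹ • v) i = p i + t k * v i := by
        simp only [Pi.add_apply, Pi.smul_apply, smul_eq_mul]
        field_simp
        ring
      simp only
      rw [e2]
      exact ht k i
  choose z hzC hz using hz
  obtain ⟨y, hyC, φ, hφ, hlim⟩ := hC.tendsto_subseq hzC
  have hε : Tendsto (fun m : ℕ => 1 / ((φ m : ℝ) + 1)) atTop (𝓝 0) :=
    tendsto_one_div_add_atTop_nhds_zero_nat.comp hφ.tendsto_atTop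
  have hyv : y.2.1 ≠ 0 := by
    have : y.2.1 ∈ Metric.sphere (0 : Fin (n+1) → ℝ) 1 := hyC.2.1
    intro h0
    rw [h0] at this
    simp at this
  refine ⟨y.1, y.2.1, hyv, fun k => ⟨y.2.2 k, fun i => ?_⟩⟩
  have hf : Continuous (fun q : (Fin (n+1) → ℝ) × (Fin (n+1) → ℝ) × (κ → ℝ) =>
      q.1 i + q.2.2 k * q.2.1 i) := by fun_prop
  have hlim2 := (hf.tendsto y).comp hlim
  constructor
  · have h1 : Tendsto (fun m : ℕ => a k i - 1 / ((φ m : ℝ) + 1)) atTop (𝓝 (a k i - 0)) :=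
      tendsto_const_nhds.sub hε
    exact le_of_tendsto_of_tendsto' h1 hlim2 fun m => (hz (φ m) k i).1
  · have h1 : Tendsto (fun m : ℕ => b k i + 1 / ((φ m : ℝ) + 1)) atTop (𝓝 (b k i + 0)) :=
      tendsto_const_nhds.add hε
    exact le_of_tendsto_of_tendsto' hlim2 h1 fun m => (hz (φ m) k i).2

lemma hit_mono {m : ℕ} {a b p v : Fin m → ℝ} {ε ε' : ℝ} (h : Hit a b p v ε) (he : ε ≤ ε') :
    Hit a b p v ε' := by
  obtain ⟨t, ht⟩ := h
  exact ⟨t, fun i => ⟨by linarith [(ht i).1], by linarith [(ht i).2]⟩⟩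

/-- the colours: a direction class and a number below `2 n + 1` -/
abbrev Col (n : ℕ) := (Fin n → Bool) × Fin (2 * n + 1)

lemma card_Col (n : ℕ) : Fintype.card (Col n) = 2 ^ n * (2 * n + 1) := by
  simp [Fintype.card_prod]

/-- the rainbow theorem for finite families, with indices -/
theorem rainbow_fin {n : ℕ} {κ : Col n → Type*} [∀ c, Fintype (κ c)]
    (a b : ∀ c, κ c → Fin (n+1) → ℝ)
    (h : ∀ f : (∀ c, κ c), ∃ p v : Fin (n+1) → ℝ, v ≠ 0 ∧
      ∀ c, Hit (a c (f c)) (b c (f c)) p v 0) :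
    ∃ c, ∃ p v : Fin (n+1) → ℝ, v ≠ 0 ∧ ∀ k, Hit (a c k) (b c k) p v 0 := by
  classical
  by_contra hcon
  push Not at hcon
  have h1 : ∀ c, ∃ ε : ℝ, 0 < ε ∧ ∀ p v : Fin (n+1) → ℝ, v 0 = 1 →
      ∃ k, ¬ Hit (a c k) (b c k) p v ε := by
    intro c
    by_contra h2
    push Not at h2
    obtain ⟨p, v, hv, hk⟩ := limit (a c) (b c) h2
    obtain ⟨k, hk'⟩ := hcon c p v hv
    exact hk' (hk k)
  choose e he hno using h1
  obtain ⟨c0, hc0⟩ := Finite.exists_min e
  have h2 : ∀ τ : Fin n → Bool, ∃ g : (∀ j, κ (τ, j)),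
      ¬ ∃ z, ∀ j, z ∈ Par (a (τ, j) (g j)) (b (τ, j) (g j)) τ (e c0) := by
    intro τ
    by_contra h3
    push Not at h3
    have hfin : Module.finrank ℝ ((Fin n → ℝ) × (Fin n → ℝ)) = 2 * n := by
      rw [Module.finrank_prod, Module.finrank_fin_fun]; ring
    obtain ⟨j, z, hz⟩ := rainbow (C := Fin (2 * n + 1)) hfin (by simp)
      (fun j k => Par (a (τ, j) k) (b (τ, j) k) τ (e c0)) (fun j k => par_convex _ _ _ _) h3
    obtain ⟨p, v, hv, hk⟩ := par_to_hit _ _ τ z hz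
    obtain ⟨k, hk'⟩ := hno (τ, j) p v hv
    exact hk' (hit_mono (hk k) (hc0 _))
  choose g hg using h2
  obtain ⟨p, v, hv, hpv⟩ := h (fun c => g c.1 c.2)
  obtain ⟨v', hv', h'⟩ := pert (Finset.univ : Finset (Col n)) (fun c => a c (g c.1 c.2))
    (fun c => b c (g c.1 c.2)) p v (fun c _ => hpv c) (he c0)
  have h3 : ∃ τ : Fin n → Bool, ∃ z, ∀ c ∈ (Finset.univ : Finset (Col n)),
      z ∈ Par (a c (g c.1 c.2)) (b c (g c.1 c.2)) τ (e c0) := by
    rcases lt_or_gt_of_ne (hv' 0) with h0 | h0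
    · refine hit_to_par (Finset.univ : Finset (Col n)) (fun c => a c (g c.1 c.2))
        (fun c => b c (g c.1 c.2)) p (fun i => - v' i) (fun i => neg_ne_zero.2 (hv' i))
        (by simpa using h0) (fun k hk => ?_)
      obtain ⟨t, ht⟩ := h' k hk
      exact ⟨-t, fun i => by simpa using ht i⟩
    · exact hit_to_par (Finset.univ : Finset (Col n)) (fun c => a c (g c.1 c.2))
        (fun c => b c (g c.1 c.2)) p v' hv' h0 h'
  obtain ⟨τ, z, hz⟩ := h3
  exact hg τ ⟨z, fun j => hz (τ, j) (Finset.mem_univ _)⟩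

end Pool.Agent.Y349.BX
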